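import Pool.Agent.H6.FC.Lem

set_option autoImplicit false

namespace Pool.Agent.H46.FC

open FI AMc AMt

theorem c0_ge : (1 : ℝ) ≤ c0 := Real.one_le_rpow (by norm_num) (by norm_num)

theorem dx2_aux (DX3 : T_DX3) : ∀ (n : ℕ) (R : Type) [Group R] [Finite R] (H : Subgroup R),
    Group.IsSolvable R → H.index = n → (H.normalCore.index : ℝ) ≤ c0 ^ (n - 1) := by
  intro n
  induction n using Nat.strong_induction_on with
  | _ n ih =>
    intro R _ _ H hR hn
    by_cases htop : H = ⊤
    · subst htop
      rw [Subgroup.normalCore_eq_self]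
      rw [Subgroup.index_top] at hn ⊢
      subst hn
      simp
    obtain ⟨H', hco, hle⟩ := (eq_top_or_exists_le_coatom H).resolve_left htop
    have h3 := DX3 R H' hR hco
    have hm0 : H'.index ≠ 0 := Subgroup.index_ne_zero_of_finite
    have hm1 : H'.index ≠ 1 := fun h => hco.1 (Subgroup.index_eq_one.1 h)
    have hm2 : 2 ≤ H'.index := by omega
    have hbm : H.relIndex H' * H'.index = n := by rw [Subgroup.relIndex_mul_index hle, hn]
    have hn0 : n ≠ 0 := by rw [← hn]; exact Subgroup.index_ne_zero_of_finite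
    have hb1 : 1 ≤ H.relIndex H' := by
      rcases Nat.eq_zero_or_pos (H.relIndex H') with h | h
      · rw [h, zero_mul] at hbm
        exact absurd hbm.symm hn0
      · exact h
    have hbn : H.relIndex H' < n := by
      rw [← hbm]
      nlinarith
    have : Group.IsSolvable R := hR
    have hI := ih _ hbn (↥H') (H.subgroupOf H') inferInstance rfl
    set C : Subgroup ↥H' := (H.subgroupOf H').normalCore with hC
    set W : Subgroup R := C.map H'.subtype with hW
    have hWH' : W ≤ H' := by
      rintro _ ⟨w, -, rfl⟩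
      exact w.2
    have hWH : W ≤ H := by
      rintro _ ⟨w, hw, rfl⟩
      have := Subgroup.normalCore_le _ hw
      exact Subgroup.mem_subgroupOf.1 this
    have hWn : ∀ w ∈ W, ∀ h ∈ H', h * w * h⁻¹ ∈ W := by
      rintro _ ⟨w, hw, rfl⟩ h hh
      refine ⟨⟨h, hh⟩ * w * ⟨h, hh⟩⁻¹, ?_, by simp⟩
      exact (Subgroup.normalCore_normal _).conj_mem w hw ⟨h, hh⟩
    have hWi : W.relIndex H' = C.index := by
      rw [Subgroup.relIndex, hW, Subgroup.subgroupOf,
        Subgroup.comap_map_eq_self_of_injective H'.subtype_injective]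
    -- conjugates
    let Wc : R ⧸ H' → Subgroup R := fun c => W.map (MulAut.conj c.out).toMonoidHom
    have : Fintype (R ⧸ H') := Fintype.ofFinite _
    have hcard : Fintype.card (R ⧸ H') = H'.index := by
      rw [Subgroup.index, Nat.card_eq_fintype_card]
    set K := H'.normalCore with hK
    have hsub : (⨅ c, Wc c) ≤ H.normalCore := by
      intro x hx g
      have hxc : x ∈ Wc (QuotientGroup.mk g⁻¹) := by
        have := Subgroup.mem_iInf.1 hx (QuotientGroup.mk g⁻¹)
        exact this
      obtain ⟨w, hw, hwx⟩ := hxc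
      set r : R := (QuotientGroup.mk g⁻¹ : R ⧸ H').out with hr
      have hmem : r⁻¹ * g⁻¹ ∈ H' := by
        rw [← QuotientGroup.eq, hr, QuotientGroup.out_eq']
      have hx2 : x = r * w * r⁻¹ := by
        rw [← hwx]
        rfl
      have e : g * x * g⁻¹ = (r⁻¹ * g⁻¹)⁻¹ * w * ((r⁻¹ * g⁻¹)⁻¹)⁻¹ := by
        rw [hx2]
        group
      rw [e]
      exact hWH (hWn w hw _ (H'.inv_mem hmem))
    have hKle : H.normalCore ≤ K := Subgroup.normalCore_mono hle
    have hind : H.normalCore.index = H.normalCore.relIndex K * K.index :=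
      (Subgroup.relIndex_mul_index hKle).symm
    have hfin : ∀ A B : Subgroup R, A.relIndex B ≠ 0 := fun A B => by
      rw [Subgroup.relIndex]
      exact Subgroup.index_ne_zero_of_finite
    have h5 : H.normalCore.relIndex K ≤ (⨅ c, Wc c).relIndex K :=
      Subgroup.relIndex_le_of_le_left hsub (hfin _ _)
    have h6 : (⨅ c, Wc c).relIndex K ≤ ∏ c, (Wc c).relIndex K := Subgroup.relIndex_iInf_le _
    have h7 : ∀ c, (Wc c).relIndex K ≤ C.index := by
      intro c
      have hKR : K ≤ H'.map (MulAut.conj c.out).toMonoidHom := by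
        intro x hx
        refine ⟨(c.out)⁻¹ * x * c.out, ?_, ?_⟩
        · have := hx (c.out)⁻¹
          simpa using this
        · simp [MulAut.conj_apply, mul_assoc]
      calc (Wc c).relIndex K ≤ (Wc c).relIndex (H'.map (MulAut.conj c.out).toMonoidHom) :=
            Subgroup.relIndex_le_of_le_right hKR (hfin _ _)
        _ = W.relIndex H' := Subgroup.relIndex_map_map_of_injective _ _
            (MulAut.conj c.out).injective
        _ = C.index := hWi
    have h8 : (H.normalCore.relIndex K : ℝ) ≤ (c0 ^ (H.relIndex H' - 1)) ^ H'.index := by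
      have a1 : H.normalCore.relIndex K ≤ C.index ^ H'.index := by
        refine h5.trans (h6.trans ?_)
        calc ∏ c, (Wc c).relIndex K ≤ ∏ _c : R ⧸ H', C.index :=
              Finset.prod_le_prod' fun c _ => h7 c
          _ = C.index ^ H'.index := by rw [Finset.prod_const, Finset.card_univ, hcard]
      calc (H.normalCore.relIndex K : ℝ) ≤ ((C.index ^ H'.index : ℕ) : ℝ) := by exact_mod_cast a1
        _ = (C.index : ℝ) ^ H'.index := by push_cast; rfl
        _ ≤ (c0 ^ (H.relIndex H' - 1)) ^ H'.index :=
            pow_le_pow_left₀ (Nat.cast_nonneg _) hI _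
    rw [hind]
    push_cast
    have hc := c0_ge
    calc (H.normalCore.relIndex K : ℝ) * (K.index : ℝ)
        ≤ (c0 ^ (H.relIndex H' - 1)) ^ H'.index * c0 ^ (H'.index - 1) :=
          mul_le_mul h8 h3 (Nat.cast_nonneg _) (by positivity)
      _ = c0 ^ (n - 1) := by
          rw [← pow_mul, ← pow_add]
          congr 1
          rw [← hbm]
          obtain ⟨b, hb⟩ : ∃ b, H.relIndex H' = b + 1 := ⟨H.relIndex H' - 1, by omega⟩
          obtain ⟨m, hm⟩ : ∃ m, H'.index = m + 1 := ⟨H'.index - 1, by omega⟩
          rw [hb, hm]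
          simp only [Nat.add_sub_cancel]
          have : (b + 1) * (m + 1) = b * (m + 1) + m + 1 := by ring
          rw [this]
          omega

theorem pf_DX2 (DX3 : T_DX3) : T_DX2 := by
  intro R _ _ H hR
  exact dx2_aux DX3 _ R H hR rfl

end Pool.Agent.H46.FC
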