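import Pool.Agent.H6.FC.Lem

set_option autoImplicit false

namespace Pool.Agent.H46.FC

open FI AMc AMt Matrix

variable {q : ℕ} [Fact q.Prime]

/-- the companion matrix -/
def Am (t : ZMod q) : SpecialLinearGroup (Fin 2) (ZMod q) :=
  ⟨!![0, -1; 1, t], by simp [Matrix.det_fin_two]⟩

theorem exists_form (hq : 5 ≤ q) {t w : ZMod q} (ht : t ^ 2 ≠ 4) :
    ∃ x y : ZMod q, x ^ 2 + t * x * y + y ^ 2 = w := by
  have hp : q.Prime := Fact.out
  have hodd : q % 2 = 1 := by
    rcases hp.eq_two_or_odd with h | h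
    · omega
    · exact h
  have h2 : (2 : ZMod q) ≠ 0 := by
    intro h
    have h' : ((2 : ℕ) : ZMod q) = 0 := by exact_mod_cast h
    rw [ZMod.natCast_eq_zero_iff] at h'
    have := Nat.le_of_dvd (by norm_num) h'
    omega
  have hc : (1 - t ^ 2 / 4 : ZMod q) ≠ 0 := by
    intro h
    apply ht
    have h4 : (4 : ZMod q) ≠ 0 := by
      have : (4 : ZMod q) = 2 * 2 := by norm_num
      rw [this]; exact mul_ne_zero h2 h2
    have : t ^ 2 / 4 = 1 := by linear_combination -h
    rw [div_eq_iff h4] at this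
    rw [this, one_mul]
  obtain ⟨a, y, hay⟩ := FiniteField.exists_root_sum_quadratic
    (f := (Polynomial.X ^ 2 : Polynomial (ZMod q)))
    (g := (Polynomial.C (1 - t ^ 2 / 4) * Polynomial.X ^ 2 + Polynomial.C 0 * Polynomial.X
      + Polynomial.C (-w) : Polynomial (ZMod q)))
    (by simp) (Polynomial.degree_quadratic hc) (by rw [ZMod.card]; exact hodd)
  refine ⟨a - t / 2 * y, y, ?_⟩
  simp only [Polynomial.eval_add, Polynomial.eval_mul, Polynomial.eval_pow, Polynomial.eval_X,
    Polynomial.eval_C, zero_mul, add_zero] at hay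
  obtain ⟨s, hs⟩ : ∃ s : ZMod q, s = t / 2 := ⟨_, rfl⟩
  have ht2 : t = 2 * s := by rw [hs]; field_simp
  have h44 : t ^ 2 / 4 = s ^ 2 := by
    rw [hs, div_pow]
    norm_num
  rw [h44] at hay
  rw [← hs]
  rw [ht2]
  linear_combination hay

theorem fix_Am (hq : 5 ≤ q) (α0 : MulAut (PL q)) (g : GL (Fin 2) (ZMod q))
    (hg : ∀ A B : SpecialLinearGroup (Fin 2) (ZMod q),
      SpecialLinearGroup.toGL B = g * SpecialLinearGroup.toGL A * g⁻¹ →
        α0 (QuotientGroup.mk A) = QuotientGroup.mk B) {t : ZMod q} (ht : t ^ 2 ≠ 4) :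
    IsConj (α0 (QuotientGroup.mk (Am t))) (QuotientGroup.mk (Am t) : PL q) := by
  have hdet : g.val.det ≠ 0 := g.det.ne_zero
  obtain ⟨x, y, hxy⟩ := exists_form hq (w := (g.val.det)⁻¹) ht
  have hCdet : (!![x, -y; y, x + t * y] : Matrix (Fin 2) (Fin 2) (ZMod q)).det = (g.val.det)⁻¹ := by
    rw [Matrix.det_fin_two_of, ← hxy]
    ring
  let D : SpecialLinearGroup (Fin 2) (ZMod q) :=
    ⟨g.val * !![x, -y; y, x + t * y], by rw [Matrix.det_mul, hCdet, mul_inv_cancel₀ hdet]⟩
  have hcom : Commute (g⁻¹ * SpecialLinearGroup.toGL D) (SpecialLinearGroup.toGL (Am t)) := by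
    apply Units.ext
    have e : ((g⁻¹ * SpecialLinearGroup.toGL D : GL (Fin 2) (ZMod q)) :
        Matrix (Fin 2) (Fin 2) (ZMod q)) = !![x, -y; y, x + t * y] := by
      rw [Units.val_mul]
      change (g⁻¹).val * (g.val * !![x, -y; y, x + t * y]) = _
      rw [← mul_assoc, Units.inv_mul, one_mul]
    rw [Units.val_mul (g⁻¹ * SpecialLinearGroup.toGL D),
      Units.val_mul _ (g⁻¹ * SpecialLinearGroup.toGL D), e]
    change !![x, -y; y, x + t * y] * !![0, -1; 1, t] = !![0, -1; 1, t] * !![x, -y; y, x + t * y]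
    ext i j
    fin_cases i <;> fin_cases j <;> simp [Matrix.mul_apply, Fin.sum_univ_two] <;> ring
  have hB : SpecialLinearGroup.toGL (D * Am t * D⁻¹) =
      g * SpecialLinearGroup.toGL (Am t) * g⁻¹ := by
    rw [map_mul, map_mul, map_inv]
    have e : SpecialLinearGroup.toGL D = g * (g⁻¹ * SpecialLinearGroup.toGL D) := by group
    have e2 := hcom.eq
    calc SpecialLinearGroup.toGL D * SpecialLinearGroup.toGL (Am t) *
          (SpecialLinearGroup.toGL D)⁻¹
        = g * ((g⁻¹ * SpecialLinearGroup.toGL D) * SpecialLinearGroup.toGL (Am t)) *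
          (SpecialLinearGroup.toGL D)⁻¹ := by group
      _ = g * (SpecialLinearGroup.toGL (Am t) * (g⁻¹ * SpecialLinearGroup.toGL D)) *
          (SpecialLinearGroup.toGL D)⁻¹ := by rw [e2]
      _ = g * SpecialLinearGroup.toGL (Am t) * g⁻¹ := by group
  rw [hg _ _ hB, isConj_comm, isConj_iff]
  exact ⟨QuotientGroup.mk D, rfl⟩

theorem center_scalar {Z : SpecialLinearGroup (Fin 2) (ZMod q)}
    (hZ : Z ∈ Subgroup.center (SpecialLinearGroup (Fin 2) (ZMod q))) :
    ∃ r : ZMod q, r ^ 2 = 1 ∧ (Z : Matrix (Fin 2) (Fin 2) (ZMod q)) = Matrix.scalar (Fin 2) r := by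
  obtain ⟨r, hr, hrr⟩ := Matrix.SpecialLinearGroup.mem_center_iff.1 hZ
  exact ⟨r, by simpa using hr, hrr.symm⟩

theorem conj_trace {A B : SpecialLinearGroup (Fin 2) (ZMod q)}
    (h : IsConj (QuotientGroup.mk A : PL q) (QuotientGroup.mk B)) :
    A.val.trace ^ 2 = B.val.trace ^ 2 := by
  obtain ⟨c, hc⟩ := isConj_iff.1 h
  obtain ⟨D, rfl⟩ := QuotientGroup.mk_surjective c
  have h1 : (QuotientGroup.mk (D * A * D⁻¹) : PL q) = QuotientGroup.mk B := hc
  rw [QuotientGroup.eq] at h1
  obtain ⟨r, hr, hrr⟩ := center_scalar h1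
  have h2 : B.val = (D * A * D⁻¹).val * Matrix.scalar (Fin 2) r := by
    rw [← hrr]
    change B.val = ((D * A * D⁻¹) * ((D * A * D⁻¹)⁻¹ * B)).val
    rw [mul_inv_cancel_left]
  have h3 : (D * A * D⁻¹).val.trace = A.val.trace := by
    change (D.val * A.val * (D⁻¹).val).trace = _
    rw [Matrix.trace_mul_comm, ← mul_assoc]
    change ((D⁻¹ * D).val * A.val).trace = _
    rw [inv_mul_cancel]
    simp
  have h4 : B.val.trace = A.val.trace * r := by
    rw [h2, ← h3]
    simp [Matrix.trace, Matrix.mul_apply, Fin.sum_univ_two, Matrix.scalar, Matrix.diagonal]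
    ring
  rw [h4, mul_pow, hr, mul_one]

theorem pf_FXC : T_FXC := by
  intro q hp hq α0 g hg
  have : Fact q.Prime := ⟨hp⟩
  have : NeZero q := ⟨hp.ne_zero⟩
  have : Finite (SpecialLinearGroup (Fin 2) (ZMod q)) := Subtype.finite
  classical
  let S : Finset (ZMod q) := Finset.univ.image (fun t : ZMod q => t ^ 2)
  have hS : q + 1 ≤ 2 * S.card := by
    let s : Finset (ZMod q) := Finset.univ.erase 0
    have hs : s.card = q - 1 := by
      rw [Finset.card_erase_of_mem (Finset.mem_univ _), Finset.card_univ, ZMod.card]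
    have h1 : s.card ≤ 2 * (s.image (fun t : ZMod q => t ^ 2)).card := by
      apply Finset.card_le_mul_card_image
      intro a ha
      obtain ⟨t, ht, rfl⟩ := Finset.mem_image.1 ha
      calc _ ≤ ({t, -t} : Finset (ZMod q)).card := by
            apply Finset.card_le_card
            intro x hx
            rw [Finset.mem_filter] at hx
            have := sq_eq_sq_iff_eq_or_eq_neg.1 hx.2
            rw [Finset.mem_insert, Finset.mem_singleton]
            exact this
        _ ≤ 2 := Finset.card_le_two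
    have h2 : (s.image (fun t : ZMod q => t ^ 2)).card + 1 ≤ S.card := by
      have h0 : (0 : ZMod q) ∉ s.image (fun t : ZMod q => t ^ 2) := by
        intro h
        obtain ⟨t, ht, ht0⟩ := Finset.mem_image.1 h
        exact (Finset.mem_erase.1 ht).1 (pow_eq_zero_iff (two_ne_zero)|>.1 ht0)
      rw [← Finset.card_insert_of_notMem h0]
      apply Finset.card_le_card
      intro x hx
      rw [Finset.mem_insert] at hx
      rcases hx with rfl | hx
      · exact Finset.mem_image.2 ⟨0, Finset.mem_univ _, by simp⟩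
      · obtain ⟨t, ht, rfl⟩ := Finset.mem_image.1 hx
        exact Finset.mem_image.2 ⟨t, Finset.mem_univ _, rfl⟩
    omega
  have hroot : ∀ u : S, ∃ t : ZMod q, t ^ 2 = u := by
    intro u
    obtain ⟨t, -, ht⟩ := Finset.mem_image.1 u.2
    exact ⟨t, ht⟩
  choose r hr using hroot
  have hne1 : ∀ t : ZMod q, ¬ IsConj (QuotientGroup.mk (Am t) : PL q) 1 := by
    intro t h
    rw [isConj_comm, isConj_one_right] at h
    have h1 := (QuotientGroup.eq_one_iff _).1 h
    obtain ⟨r, -, hrr⟩ := center_scalar h1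
    have h2 := congrFun (congrFun hrr 1) 0
    simp [Am, Matrix.scalar] at h2
  let Ψ : S → {c : ConjClasses (PL q) // c.map (α0 : PL q →* PL q) = c} := fun u =>
    if h : (u : ZMod q) = 4 then ⟨ConjClasses.mk 1, by
      change ConjClasses.mk (α0 1) = _
      rw [map_one]⟩
    else ⟨ConjClasses.mk (QuotientGroup.mk (Am (r u))), by
      change ConjClasses.mk (α0 _) = _
      rw [ConjClasses.mk_eq_mk_iff_isConj]
      exact fix_Am hq α0 g hg (by rw [hr]; exact h)⟩
  have hinj : Function.Injective Ψ := by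
    intro u v huv
    have huv' := congrArg Subtype.val huv
    by_cases hu : (u : ZMod q) = 4
    · by_cases hv : (v : ZMod q) = 4
      · exact Subtype.ext (hu.trans hv.symm)
      · exfalso
        simp only [Ψ, dif_pos hu, dif_neg hv] at huv'
        rw [ConjClasses.mk_eq_mk_iff_isConj] at huv'
        exact hne1 _ huv'.symm
    · by_cases hv : (v : ZMod q) = 4
      · exfalso
        simp only [Ψ, dif_neg hu, dif_pos hv] at huv'
        rw [ConjClasses.mk_eq_mk_iff_isConj] at huv'
        exact hne1 _ huv'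
      · simp only [Ψ, dif_neg hu, dif_neg hv] at huv'
        rw [ConjClasses.mk_eq_mk_iff_isConj] at huv'
        have := conj_trace huv'
        apply Subtype.ext
        simp only [Am, Matrix.trace_fin_two_of, zero_add] at this
        rw [← hr u, ← hr v]
        exact this
  have h5 := Nat.card_le_card_of_injective Ψ hinj
  rw [Nat.card_eq_fintype_card, Fintype.card_coe] at h5
  omega

end Pool.Agent.H46.FC
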